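import Pool.Agent.K1H62.MC.Plan

set_option autoImplicit false

/-! The first variation does not vanish at `(3, 0, 0)`. -/

namespace Pool.Agent.K1H22.MC

open MeasureTheory Filter Topology
open scoped ENNReal ContDiff
open Pool.Agent.K1H62.MC

noncomputable section

/-- the derivative of the norm -/
lemma norm_hasFDerivAt {y : E} (hy : y ≠ 0) :
    HasFDerivAt (fun z : E => ‖z‖) ((‖y‖)⁻¹ • innerSL ℝ y) y := by
  have h1 : HasFDerivAt (fun z : E => ‖z‖ ^ 2) (2 • innerSL ℝ y) y :=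
    (hasStrictFDerivAt_norm_sq y).hasFDerivAt
  have h2 := h1.sqrt (by positivity)
  have e : (fun z : E => Real.sqrt (‖z‖ ^ 2)) = fun z => ‖z‖ := by
    funext z; exact Real.sqrt_sq (norm_nonneg z)
  rw [e, Real.sqrt_sq (norm_nonneg y)] at h2
  refine h2.congr_fderiv ?_
  have : ‖y‖ ≠ 0 := norm_ne_zero_iff.mpr hy
  ext v
  simp only [ContinuousLinearMap.smul_apply, smul_eq_mul, nsmul_eq_mul]
  field_simp
  simp

lemma s_ne {x : E} (hx : 2 < s x) : x - pp ≠ 0 ∧ x + pp ≠ 0 := by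
  have hp : ‖pp‖ = 1 := by unfold pp; simp
  constructor
  · intro h
    have : x = pp := sub_eq_zero.mp h
    subst this
    unfold s at hx
    rw [sub_self, norm_zero, ← two_smul ℝ, norm_smul, hp] at hx
    norm_num at hx
  · intro h
    have : x = -pp := eq_neg_of_add_eq_zero_left h
    subst this
    unfold s at hx
    rw [neg_add_cancel, norm_zero, ← neg_add', norm_neg, ← two_smul ℝ, norm_smul, hp] at hx
    norm_num at hx

lemma s_hasFDerivAt {x : E} (hx : 2 < s x) :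
    HasFDerivAt s ((‖x - pp‖)⁻¹ • innerSL ℝ (x - pp) + (‖x + pp‖)⁻¹ • innerSL ℝ (x + pp)) x := by
  obtain ⟨h1, h2⟩ := s_ne hx
  have a1 : HasFDerivAt (fun z : E => ‖z - pp‖) ((‖x - pp‖)⁻¹ • innerSL ℝ (x - pp)) x := by
    have := (norm_hasFDerivAt h1).comp x ((hasFDerivAt_id x).sub_const pp)
    rw [ContinuousLinearMap.comp_id] at this
    exact this
  have a2 : HasFDerivAt (fun z : E => ‖z + pp‖) ((‖x + pp‖)⁻¹ • innerSL ℝ (x + pp)) x := by
    have := (norm_hasFDerivAt h2).comp x ((hasFDerivAt_id x).add_const pp)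
    rw [ContinuousLinearMap.comp_id] at this
    exact this
  exact a1.add a2

lemma pd_s {x : E} (hx : 2 < s x) (i : Fin 3) :
    pd i s x = (x - pp) i / ‖x - pp‖ + (x + pp) i / ‖x + pp‖ := by
  unfold pd
  rw [(s_hasFDerivAt hx).fderiv]
  simp only [ContinuousLinearMap.add_apply, ContinuousLinearMap.smul_apply, innerSL_apply_apply,
    smul_eq_mul]
  rw [EuclideanSpace.inner_single_right, EuclideanSpace.inner_single_right]
  simp only [one_mul, conj_trivial]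
  rw [inv_mul_eq_div, inv_mul_eq_div]

lemma pd_u {x : E} (hx : 2 < s x) (i : Fin 3) :
    pd i u x = 4 / (Real.log 3 * (s x ^ 2 - 4)) * pd i s x := by
  have h3 : Real.log 3 ≠ 0 := (Real.log_pos (by norm_num)).ne'
  have hd : HasDerivAt (fun y : ℝ => 1 - Real.log ((y + 2) / (y - 2)) / Real.log 3)
      (4 / (Real.log 3 * (s x ^ 2 - 4))) (s x) := by
    have n1 : s x - 2 ≠ 0 := (sub_pos.mpr hx).ne'
    have n2 : s x + 2 ≠ 0 := (by linarith : 0 < s x + 2).ne'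
    have b1 : HasDerivAt (fun y : ℝ => (y + 2) / (y - 2)) ((1 * (s x - 2) - (s x + 2) * 1) / (s x - 2) ^ 2)
        (s x) := ((hasDerivAt_id (s x)).add_const 2).div ((hasDerivAt_id (s x)).sub_const 2) n1
    have b2 := ((b1.log (div_ne_zero n2 n1)).div_const (Real.log 3)).const_sub 1
    refine b2.congr_deriv ?_
    have n3 : s x ^ 2 - 4 ≠ 0 := by
      have : s x ^ 2 - 4 = (s x - 2) * (s x + 2) := by ring
      rw [this]; exact mul_ne_zero n1 n2
    field_simp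
    ring
  exact pd_comp (φ := fun y : ℝ => 1 - Real.log ((y + 2) / (y - 2)) / Real.log 3) i
    (s_hasFDerivAt hx).differentiableAt hd

lemma u_smooth : ContDiffOn ℝ ∞ u {x | 2 < s x} := by
  have h3 : Real.log 3 ≠ 0 := (Real.log_pos (by norm_num)).ne'
  intro x hx
  obtain ⟨h1, h2⟩ := s_ne hx
  have hs : ContDiffAt ℝ ∞ s x := by
    have a1 : ContDiffAt ℝ ∞ (fun z : E => ‖z - pp‖) x :=
      ContDiffAt.norm ℝ (contDiffAt_id.sub contDiffAt_const) h1
    have a2 : ContDiffAt ℝ ∞ (fun z : E => ‖z + pp‖) x :=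
      ContDiffAt.norm ℝ (contDiffAt_id.add contDiffAt_const) h2
    exact a1.add a2
  have hx' : 2 < s x := hx
  have n1 : s x - 2 ≠ 0 := (sub_pos.mpr hx').ne'
  have n2 : s x + 2 ≠ 0 := (by linarith : 0 < s x + 2).ne'
  have : ContDiffAt ℝ ∞ u x := by
    unfold u
    exact contDiffAt_const.sub ((((hs.add contDiffAt_const).div (hs.sub contDiffAt_const) n1).log
      (div_ne_zero n2 n1)).div_const _)
  exact this.contDiffWithinAt

/-- the line through `x` in the direction `i` -/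
def ln (i : Fin 3) (x : E) (t : ℝ) : E := x + t • EuclideanSpace.single i (1 : ℝ)

lemma ln_zero (i : Fin 3) (x : E) : ln i x 0 = x := by unfold ln; simp

lemma ln_cont (i : Fin 3) (x : E) : Continuous (ln i x) := by unfold ln; fun_prop

lemma line {f : E → ℝ} {i : Fin 3} {x : E} {t : ℝ} (hf : DifferentiableAt ℝ f (ln i x t)) :
    HasDerivAt (fun t => f (ln i x t)) (pd i f (ln i x t)) t := by
  have h1 : HasDerivAt (ln i x) (EuclideanSpace.single i (1 : ℝ)) t := by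
    unfold ln
    have := ((hasDerivAt_id t).smul_const (EuclideanSpace.single i (1 : ℝ) : E)).const_add x
    rw [one_smul] at this
    exact this
  exact hf.hasFDerivAt.comp_hasDerivAt t h1

/-- the second derivative along a line -/
lemma pd_pd {f : E → ℝ} {U : Set E} (hU : IsOpen U) (hf : ContDiffOn ℝ ∞ f U) {x : E} (hx : x ∈ U)
    (i : Fin 3) {g g' : ℝ → ℝ} {g'' : ℝ} (h0 : ∀ᶠ t in 𝓝 (0 : ℝ), f (ln i x t) = g t)
    (h1 : ∀ᶠ t in 𝓝 (0 : ℝ), HasDerivAt g (g' t) t) (h2 : HasDerivAt g' g'' 0) :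
    pd i (pd i f) x = g'' := by
  have hU' : ∀ᶠ t in 𝓝 (0 : ℝ), ln i x t ∈ U := by
    have := (ln_cont i x).continuousAt (x := 0)
    refine this.eventually_mem ?_
    rw [ln_zero]; exact hU.mem_nhds hx
  have e1 : ∀ᶠ t in 𝓝 (0 : ℝ), pd i f (ln i x t) = g' t := by
    filter_upwards [hU', h0.eventually_nhds, h1] with t ht1 ht2 ht3
    have a := line (diff_of hU hf ht1)
    have b : HasDerivAt (fun t => f (ln i x t)) (g' t) t := ht3.congr_of_eventuallyEq ht2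
    exact a.unique b
  have e2 : HasDerivAt (fun t => pd i f (ln i x t)) (pd i (pd i f) (ln i x 0)) 0 := by
    refine line ?_
    rw [ln_zero]
    exact diff_of hU (pd_smooth hU hf i) hx
  rw [ln_zero] at e2
  exact e2.unique (h2.congr_of_eventuallyEq e1)

lemma norm3 (y : E) : ‖y‖ = Real.sqrt (y 0 ^ 2 + y 1 ^ 2 + y 2 ^ 2) := by
  rw [EuclideanSpace.norm_eq, Fin.sum_univ_three]
  simp only [Real.norm_eq_abs, sq_abs]

lemma ln0_sub (t : ℝ) (j : Fin 3) : (ln 0 x₀ t - pp) j = ![2 + t, 0, 0] j := by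
  fin_cases j <;> simp [ln, x₀, pp]
  ring

lemma ln0_add (t : ℝ) (j : Fin 3) : (ln 0 x₀ t + pp) j = ![4 + t, 0, 0] j := by
  fin_cases j <;> simp [ln, x₀, pp]
  ring

lemma ln1_sub (t : ℝ) (j : Fin 3) : (ln 1 x₀ t - pp) j = ![2, t, 0] j := by
  fin_cases j <;> simp [ln, x₀, pp]
  norm_num

lemma ln1_add (t : ℝ) (j : Fin 3) : (ln 1 x₀ t + pp) j = ![4, t, 0] j := by
  fin_cases j <;> simp [ln, x₀, pp]
  norm_num

lemma n0_sub {t : ℝ} (ht : -1 < t) : ‖ln 0 x₀ t - pp‖ = 2 + t := by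
  rw [norm3, ln0_sub, ln0_sub, ln0_sub]
  simp only [Matrix.cons_val]
  rw [show (2 + t) ^ 2 + 0 ^ 2 + (0 : ℝ) ^ 2 = (2 + t) ^ 2 by ring]
  exact Real.sqrt_sq (by linarith)

lemma n0_add {t : ℝ} (ht : -1 < t) : ‖ln 0 x₀ t + pp‖ = 4 + t := by
  rw [norm3, ln0_add, ln0_add, ln0_add]
  simp only [Matrix.cons_val]
  rw [show (4 + t) ^ 2 + 0 ^ 2 + (0 : ℝ) ^ 2 = (4 + t) ^ 2 by ring]
  exact Real.sqrt_sq (by linarith)

lemma n1_sub (t : ℝ) : ‖ln 1 x₀ t - pp‖ = Real.sqrt (4 + t ^ 2) := by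
  rw [norm3, ln1_sub, ln1_sub, ln1_sub]
  simp only [Matrix.cons_val]
  congr 1; ring

lemma n1_add (t : ℝ) : ‖ln 1 x₀ t + pp‖ = Real.sqrt (16 + t ^ 2) := by
  rw [norm3, ln1_add, ln1_add, ln1_add]
  simp only [Matrix.cons_val]
  congr 1; ring

lemma s0 {t : ℝ} (ht : -1 < t) : s (ln 0 x₀ t) = 6 + 2 * t := by
  unfold s; rw [n0_sub ht, n0_add ht]; ring

lemma s1 (t : ℝ) : s (ln 1 x₀ t) = Real.sqrt (4 + t ^ 2) + Real.sqrt (16 + t ^ 2) := by
  unfold s; rw [n1_sub, n1_add]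

lemma two_lt_s0 {t : ℝ} (ht : -1 < t) : 2 < s (ln 0 x₀ t) := by
  rw [s0 ht]; linarith

lemma sqrt_sub (t : ℝ) : 2 ≤ Real.sqrt (4 + t ^ 2) := by
  apply Real.le_sqrt_of_sq_le; nlinarith

lemma sqrt_add (t : ℝ) : 4 ≤ Real.sqrt (16 + t ^ 2) := by
  apply Real.le_sqrt_of_sq_le; nlinarith

lemma two_lt_s1 (t : ℝ) : 2 < s (ln 1 x₀ t) := by
  rw [s1]; linarith [sqrt_sub t, sqrt_add t]

lemma Q0_line {t : ℝ} (ht : -1 < t) :
    Q0 (ln 0 x₀ t) = 4 / Real.log 3 ^ 2 * ((3 + t) ^ 2 - 1) ^ (-2 : ℤ) := by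
  have h3 : Real.log 3 ≠ 0 := (Real.log_pos (by norm_num)).ne'
  unfold Q0
  have e : ∀ i, pd i u (ln 0 x₀ t) = _ := fun i => pd_u (two_lt_s0 ht) i
  simp only [e, pd_s (two_lt_s0 ht), n0_sub ht, n0_add ht, s0 ht, ln0_sub, ln0_add, Matrix.cons_val]
  have m1 : 2 + t ≠ 0 := (by linarith : 0 < 2 + t).ne'
  have m2 : 4 + t ≠ 0 := (by linarith : 0 < 4 + t).ne'
  rw [div_self m1, div_self m2]
  have m3 : (3 + t) ^ 2 - 1 = (2 + t) * (4 + t) := by ring
  have m4 : (6 + 2 * t) ^ 2 - 4 = 4 * ((2 + t) * (4 + t)) := by ring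
  rw [m3, m4, zpow_neg, zpow_ofNat]
  field_simp
  ring

/-- the profile along the second line -/
def H (z : ℝ) : ℝ := (3 * (2 / Real.sqrt (4 + z) + 4 / Real.sqrt (16 + z)) ^ 2 -
  z * (1 / Real.sqrt (4 + z) + 1 / Real.sqrt (16 + z)) ^ 2) /
    (16 + 2 * z + 2 * (Real.sqrt (4 + z) * Real.sqrt (16 + z))) ^ 2

lemma Q1_line (t : ℝ) : Q1 (ln 1 x₀ t) = 16 / Real.log 3 ^ 2 * H (t ^ 2) := by
  have h3 : Real.log 3 ≠ 0 := (Real.log_pos (by norm_num)).ne'
  unfold Q1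
  have e : ∀ i, pd i u (ln 1 x₀ t) = _ := fun i => pd_u (two_lt_s1 t) i
  simp only [e, pd_s (two_lt_s1 t), n1_sub, n1_add, s1, ln1_sub, ln1_add, Matrix.cons_val]
  unfold H
  have p1 : 0 < Real.sqrt (4 + t ^ 2) := by linarith [sqrt_sub t]
  have p2 : 0 < Real.sqrt (16 + t ^ 2) := by linarith [sqrt_add t]
  have q1 : Real.sqrt (4 + t ^ 2) ^ 2 = 4 + t ^ 2 := Real.sq_sqrt (by positivity)
  have q2 : Real.sqrt (16 + t ^ 2) ^ 2 = 16 + t ^ 2 := Real.sq_sqrt (by positivity)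
  set a := Real.sqrt (4 + t ^ 2)
  set b := Real.sqrt (16 + t ^ 2)
  have m4 : (a + b) ^ 2 - 4 = 16 + 2 * t ^ 2 + 2 * (a * b) := by
    have : (a + b) ^ 2 = a ^ 2 + b ^ 2 + 2 * (a * b) := by ring
    rw [this, q1, q2]; ring
  rw [m4]
  have m5 : 0 < 16 + 2 * t ^ 2 + 2 * (a * b) := by positivity
  field_simp
  ring

lemma H_smooth : ContDiffAt ℝ ∞ H 0 := by
  have a1 : ContDiffAt ℝ ∞ (fun z : ℝ => Real.sqrt (4 + z)) 0 :=
    (contDiffAt_const.add contDiffAt_id).sqrt (by simp)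
  have a2 : ContDiffAt ℝ ∞ (fun z : ℝ => Real.sqrt (16 + z)) 0 :=
    (contDiffAt_const.add contDiffAt_id).sqrt (by simp)
  have n1 : Real.sqrt (4 + 0) ≠ 0 := (Real.sqrt_pos.mpr (by norm_num)).ne'
  have n2 : Real.sqrt (16 + 0) ≠ 0 := (Real.sqrt_pos.mpr (by norm_num)).ne'
  have n3 : (16 + 2 * (0 : ℝ) + 2 * (Real.sqrt (4 + 0) * Real.sqrt (16 + 0))) ^ 2 ≠ 0 := by positivity
  unfold H
  refine ContDiffAt.div ?_ ?_ n3
  · refine ContDiffAt.sub (contDiffAt_const.mul (ContDiffAt.pow ?_ 2))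
      (contDiffAt_id.mul (ContDiffAt.pow ?_ 2))
    · exact (contDiffAt_const.div a1 n1).add (contDiffAt_const.div a2 n2)
    · exact (contDiffAt_const.div a1 n1).add (contDiffAt_const.div a2 n2)
  · exact ((contDiffAt_const.add (contDiffAt_const.mul contDiffAt_id)).add
      (contDiffAt_const.mul (a1.mul a2))).pow 2

lemma H_deriv : HasDerivAt H (-93 / 16384) 0 := by
  have e1 : Real.sqrt (4 + 0) = 2 := by
    rw [show (4 + 0 : ℝ) = 2 ^ 2 by norm_num]; exact Real.sqrt_sq (by norm_num)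
  have e2 : Real.sqrt (16 + 0) = 4 := by
    rw [show (16 + 0 : ℝ) = 4 ^ 2 by norm_num]; exact Real.sqrt_sq (by norm_num)
  have a1 : HasDerivAt (fun z : ℝ => Real.sqrt (4 + z)) (1 / 4) 0 := by
    have := ((hasDerivAt_id (0 : ℝ)).const_add 4).sqrt (by simp)
    refine this.congr_deriv ?_
    simp only [id]
    rw [e1]; norm_num
  have a2 : HasDerivAt (fun z : ℝ => Real.sqrt (16 + z)) (1 / 8) 0 := by
    have := ((hasDerivAt_id (0 : ℝ)).const_add 16).sqrt (by simp)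
    refine this.congr_deriv ?_
    simp only [id]
    rw [e2]; norm_num
  have n1 : Real.sqrt (4 + 0) ≠ 0 := by rw [e1]; norm_num
  have n2 : Real.sqrt (16 + 0) ≠ 0 := by rw [e2]; norm_num
  have n3 : (16 + 2 * (0 : ℝ) + 2 * (Real.sqrt (4 + 0) * Real.sqrt (16 + 0))) ^ 2 ≠ 0 := by positivity
  have b1 : HasDerivAt (fun z : ℝ => 2 / Real.sqrt (4 + z) + 4 / Real.sqrt (16 + z)) (-5 / 32) 0 := by
    have := ((hasDerivAt_const (0 : ℝ) (2 : ℝ)).fun_div a1 n1).fun_add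
      ((hasDerivAt_const (0 : ℝ) (4 : ℝ)).fun_div a2 n2)
    refine this.congr_deriv ?_
    rw [e1, e2]; norm_num
  have b2 : HasDerivAt (fun z : ℝ => 1 / Real.sqrt (4 + z) + 1 / Real.sqrt (16 + z))
      (-1 / 16 - 1 / 128) 0 := by
    have := ((hasDerivAt_const (0 : ℝ) (1 : ℝ)).fun_div a1 n1).fun_add
      ((hasDerivAt_const (0 : ℝ) (1 : ℝ)).fun_div a2 n2)
    refine this.congr_deriv ?_
    rw [e1, e2]; norm_num
  have c1 := ((b1.fun_pow 2).const_mul 3).fun_sub ((hasDerivAt_id (0 : ℝ)).fun_mul (b2.fun_pow 2))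
  have c2 := ((((hasDerivAt_id (0 : ℝ)).const_mul 2).const_add 16).fun_add
    ((a1.fun_mul a2).const_mul 2)).fun_pow 2
  have d := c1.fun_div c2 n3
  unfold H
  refine d.congr_deriv ?_
  simp only [id, e1, e2]
  norm_num

lemma Q1_second : pd 1 (pd 1 Q1) x₀ = 16 / Real.log 3 ^ 2 * (2 * (-93 / 16384)) := by
  have hQ : ContDiffOn ℝ ∞ Q1 {x | 2 < s x} := by
    have h := fun i => pd_smooth (open_s 2) u_smooth i
    exact ((contDiffOn_const.mul ((h 0).pow 2)).sub ((h 1).pow 2)).sub ((h 2).pow 2)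
  have hx : x₀ ∈ {x : E | 2 < s x} := by
    have := two_lt_s1 0
    rwa [ln_zero] at this
  have hc : ContinuousAt (fun t : ℝ => deriv H (t ^ 2)) 0 := by
    have h1 : ContinuousAt (deriv H) 0 := by
      have h := (H_smooth.fderiv_right (m := 0) (by norm_num)).continuousAt
      have h' : ContinuousAt (fun z : ℝ => (fderiv ℝ H z) (1 : ℝ)) 0 := h.clm_apply continuousAt_const
      exact h'.congr (Eventually.of_forall fun z => fderiv_apply_one_eq_deriv)
    have h2 : ContinuousAt (fun t : ℝ => t ^ 2) 0 := by fun_prop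
    have h0 : (0 : ℝ) ^ 2 = 0 := by norm_num
    exact ContinuousAt.comp (by rw [h0]; exact h1) h2
  refine pd_pd (open_s 2) hQ hx 1 (g := fun t => 16 / Real.log 3 ^ 2 * H (t ^ 2))
    (g' := fun t => 16 / Real.log 3 ^ 2 * (deriv H (t ^ 2) * (2 * t))) (Eventually.of_forall Q1_line) ?_ ?_
  · have hd : ∀ᶠ z in 𝓝 (0 : ℝ), DifferentiableAt ℝ H z := by
      have h1 : ContDiffAt ℝ 1 H 0 := H_smooth.of_le (by norm_num)
      filter_upwards [h1.eventually (by norm_num)] with z hz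
      exact hz.differentiableAt (by norm_num)
    have ht : Tendsto (fun t : ℝ => t ^ 2) (𝓝 0) (𝓝 0) := by
      have h2 : ContinuousAt (fun t : ℝ => t ^ 2) 0 := by fun_prop
      have := h2.tendsto
      simpa using this
    filter_upwards [ht.eventually hd] with t h
    have h1 : HasDerivAt (fun t : ℝ => t ^ 2) (2 * t) t := by
      simpa using hasDerivAt_pow 2 t
    exact (HasDerivAt.comp (h₂ := H) (h := fun t : ℝ => t ^ 2) t h.hasDerivAt h1).const_mul _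
  · refine HasDerivAt.const_mul _ ?_
    rw [hasDerivAt_iff_tendsto_slope]
    have e : Tendsto (fun t : ℝ => 2 * deriv H (t ^ 2)) (𝓝[≠] 0) (𝓝 (2 * (-93 / 16384))) := by
      have h1 := (hc.tendsto.const_mul 2).mono_left (nhdsWithin_le_nhds (s := {0}ᶜ) (a := (0:ℝ)))
      rw [show (0 : ℝ) ^ 2 = 0 by norm_num, H_deriv.deriv] at h1
      exact h1
    refine e.congr' ?_
    filter_upwards [self_mem_nhdsWithin] with t ht
    have ht' : t ≠ 0 := ht
    rw [slope_def_field]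
    field_simp
    ring

lemma Q0_second : pd 0 (pd 0 Q0) x₀ = 4 / Real.log 3 ^ 2 * (23 / 512) := by
  have hQ : ContDiffOn ℝ ∞ Q0 {x | 2 < s x} := by
    have h := fun i => pd_smooth (open_s 2) u_smooth i
    exact (((h 0).pow 2).sub (contDiffOn_const.mul ((h 1).pow 2))).add ((h 2).pow 2)
  have hx : x₀ ∈ {x : E | 2 < s x} := by
    have := two_lt_s1 0
    rwa [ln_zero] at this
  have hn : ∀ᶠ t in 𝓝 (0 : ℝ), -1 < t := lt_mem_nhds (by norm_num)
  have hk : ∀ t : ℝ, -1 < t → HasDerivAt (fun t : ℝ => (3 + t) ^ 2 - 1) (2 * (3 + t)) t := by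
    intro t _
    have := (((hasDerivAt_id t).const_add 3).fun_pow 2).sub_const 1
    refine this.congr_deriv ?_
    simp only [id]
    ring
  have hk0 : ∀ t : ℝ, -1 < t → (3 + t) ^ 2 - 1 ≠ 0 := by
    intro t ht
    have : (3 + t) ^ 2 - 1 = (2 + t) * (4 + t) := by ring
    rw [this]
    have m1 : 0 < 2 + t := by linarith
    have m2 : 0 < 4 + t := by linarith
    positivity
  refine pd_pd (open_s 2) hQ hx 0 (g := fun t => 4 / Real.log 3 ^ 2 * ((3 + t) ^ 2 - 1) ^ (-2 : ℤ))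
    (g' := fun t => 4 / Real.log 3 ^ 2 * ((-4) * ((3 + t) * ((3 + t) ^ 2 - 1) ^ (-3 : ℤ)))) ?_ ?_ ?_
  · filter_upwards [hn] with t ht
    exact Q0_line ht
  · filter_upwards [hn] with t ht
    refine HasDerivAt.const_mul _ ?_
    have h1 := hasDerivAt_zpow (-2) ((3 + t) ^ 2 - 1) (Or.inl (hk0 t ht))
    have h2 := HasDerivAt.comp (h₂ := fun y : ℝ => y ^ (-2 : ℤ)) (h := fun t : ℝ => (3 + t) ^ 2 - 1)
      t h1 (hk t ht)
    refine h2.congr_deriv ?_
    norm_num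
    ring
  · refine HasDerivAt.const_mul _ ?_
    have h1 := hasDerivAt_zpow (-3) ((3 + (0 : ℝ)) ^ 2 - 1) (Or.inl (hk0 0 (by norm_num)))
    have h2 := HasDerivAt.comp (h₂ := fun y : ℝ => y ^ (-3 : ℤ)) (h := fun t : ℝ => (3 + t) ^ 2 - 1)
      0 h1 (hk 0 (by norm_num))
    have h3 := (((hasDerivAt_id (0 : ℝ)).const_add 3).fun_mul h2).const_mul (-4)
    refine h3.congr_deriv ?_
    simp only [id, Function.comp]
    norm_num

/-- The exact value is `-c² / 512` with `c = 1 / log 3`. -/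
theorem dne_value : pd 1 (pd 1 Q1) x₀ + pd 0 (pd 0 Q0) x₀ = -(1 / Real.log 3 ^ 2 / 512) := by
  rw [Q1_second, Q0_second]; ring

theorem dne : S_DNE := by
  unfold S_DNE
  rw [dne_value]
  have h3 : 0 < Real.log 3 := Real.log_pos (by norm_num)
  exact neg_ne_zero.mpr (by positivity)

end

end Pool.Agent.K1H22.MC
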